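import Mathlib

/-!
# Families of countable sets of complex numbers of dimension at most one

`Small T`: for a family `T s` of sets of complex numbers, `s ∈ ℂ`, the set of all `(s, z_1, ..., z_n)` with
`z_i ∈ T s` has Hausdorff dimension at most `2`.
-/

namespace Pool.Agent.X120

open Set Filter Topology
open scoped NNReal ENNReal

/-- A subset of a product whose points have locally a second coordinate which is a Lipschitz function of the
first coordinate. -/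
def LocGraph {X Y : Type*} [MetricSpace X] [MetricSpace Y] (B : Set (X × Y)) : Prop :=
  ∀ p₀ ∈ B, ∃ K : ℝ≥0, ∀ᶠ q : (X × Y) × (X × Y) in 𝓝 p₀ ×ˢ 𝓝 p₀, q.1 ∈ B → q.2 ∈ B →
    dist q.1.2 q.2.2 ≤ K * dist q.1.1 q.2.1

theorem LocGraph.dimH_le {X Y : Type*} [MetricSpace X] [MetricSpace Y]
    [SecondCountableTopology X] [SecondCountableTopology Y]
    {B : Set (X × Y)} (hB : LocGraph B) {A : Set X} (hA : ∀ p ∈ B, p.1 ∈ A) : dimH B ≤ dimH A := by
  by_contra hcon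
  push Not at hcon
  obtain ⟨p₀, hp₀, hlt⟩ := exists_mem_nhdsWithin_lt_dimH_of_lt_dimH hcon
  obtain ⟨K, hK⟩ := hB p₀ hp₀
  rw [Filter.Eventually, Filter.mem_prod_iff] at hK
  obtain ⟨t₁, ht₁, t₂, ht₂, hsub⟩ := hK
  set t := t₁ ∩ t₂ ∩ B with ht
  have htn : t ∈ 𝓝[B] p₀ := by
    rw [ht]
    exact inter_mem (mem_nhdsWithin_of_mem_nhds (inter_mem ht₁ ht₂)) self_mem_nhdsWithin
  have hkey : ∀ p ∈ t, ∀ q ∈ t, dist p.2 q.2 ≤ K * dist p.1 q.1 := by
    intro p hp q hq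
    exact hsub (Set.mk_mem_prod hp.1.1 hq.1.2) hp.2 hq.2
  -- the inverse of the projection
  classical
  let g : X → X × Y := fun x => if h : ∃ p ∈ t, p.1 = x then h.choose else p₀
  have hg : ∀ p ∈ t, g p.1 = p := by
    intro p hp
    have h : ∃ q ∈ t, q.1 = p.1 := ⟨p, hp, rfl⟩
    have h1 : g p.1 = h.choose := dif_pos h
    obtain ⟨h2, h3⟩ := h.choose_spec
    rw [h1]
    refine Prod.ext h3 ?_
    have h4 := hkey _ h2 p hp
    rw [h3, dist_self, mul_zero] at h4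
    exact dist_le_zero.1 h4
  have hgl : LipschitzOnWith (max 1 K) g (Prod.fst '' t) := by
    apply LipschitzOnWith.of_dist_le_mul
    rintro _ ⟨p, hp, rfl⟩ _ ⟨q, hq, rfl⟩
    rw [hg p hp, hg q hq, Prod.dist_eq]
    have h1 := hkey p hp q hq
    have h2 : (0 : ℝ) ≤ dist p.1 q.1 := dist_nonneg
    have h3 : (1 : ℝ) ≤ ((max 1 K : ℝ≥0) : ℝ) := by exact_mod_cast le_max_left _ _
    have h4 : (K : ℝ) ≤ ((max 1 K : ℝ≥0) : ℝ) := by exact_mod_cast le_max_right _ _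
    apply max_le
    · nlinarith
    · refine h1.trans ?_
      exact mul_le_mul_of_nonneg_right h4 h2
  have h1 : t ⊆ g '' (Prod.fst '' t) := by
    intro p hp
    exact ⟨p.1, ⟨p, hp, rfl⟩, hg p hp⟩
  have h2 : Prod.fst '' t ⊆ A := by
    rintro _ ⟨p, hp, rfl⟩
    exact hA p hp.2
  have h3 : dimH t ≤ dimH A :=
    (dimH_mono h1).trans (hgl.dimH_image_le.trans (dimH_mono h2))
  exact absurd (hlt t htn) (not_lt.2 h3)

/-- The zeros of a function which is differentiable with nonzero derivative in the last variable. -/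
theorem locGraph_zeros {E : Type*} [NormedAddCommGroup E] [NormedSpace ℂ E]
    (F : E × ℂ → ℂ) (hF : ContDiff ℂ 1 F) (B : Set (E × ℂ))
    (hB : ∀ p ∈ B, F p = 0 ∧ fderiv ℂ F p (0, 1) ≠ 0) : LocGraph B := by
  intro p₀ hp₀
  obtain ⟨h0, hne⟩ := hB p₀ hp₀
  set F' := fderiv ℂ F p₀ with hF'
  have hs : HasStrictFDerivAt F F' p₀ := hF.contDiffAt.hasStrictFDerivAt one_ne_zero
  set c : ℂ := F' (0, 1) with hc
  have hcpos : 0 < ‖c‖ := norm_pos_iff.2 hne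
  have ho := hs.isLittleO.def (show (0 : ℝ) < ‖c‖ / 2 by positivity)
  refine ⟨⟨(‖F'‖ + ‖c‖ / 2) * (2 / ‖c‖), by positivity⟩, ?_⟩
  rw [nhds_prod_eq] at ho
  filter_upwards [ho] with q hq h1 h2
  obtain ⟨p, p'⟩ := q
  simp only at hq h1 h2 ⊢
  rw [(hB p h1).1, (hB p' h2).1, sub_zero, zero_sub, norm_neg] at hq
  have h3 : F' (p - p') = F' (p.1 - p'.1, 0) + (p.2 - p'.2) * c := by
    rw [hc, ← smul_eq_mul, ← map_smul, ← map_add]
    congr 1
    ext <;> simp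
  have h4 : ‖p - p'‖ ≤ ‖p.1 - p'.1‖ + ‖p.2 - p'.2‖ := by
    rw [Prod.norm_def]
    exact max_le (le_add_of_nonneg_right (norm_nonneg _)) (le_add_of_nonneg_left (norm_nonneg _))
  have h5 : ‖F' (p.1 - p'.1, 0)‖ ≤ ‖F'‖ * ‖p.1 - p'.1‖ := by
    refine (F'.le_opNorm _).trans ?_
    rw [Prod.norm_def]
    simp
  have h6 : ‖(p.2 - p'.2) * c‖ ≤ ‖F' (p - p')‖ + ‖F' (p.1 - p'.1, 0)‖ := by
    have : (p.2 - p'.2) * c = F' (p - p') - F' (p.1 - p'.1, 0) := by rw [h3]; ring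
    rw [this]
    exact norm_sub_le _ _
  rw [norm_mul] at h6
  have h7 : ‖p.2 - p'.2‖ * ‖c‖ ≤
      ‖c‖ / 2 * (‖p.1 - p'.1‖ + ‖p.2 - p'.2‖) + ‖F'‖ * ‖p.1 - p'.1‖ := by
    refine h6.trans (add_le_add (hq.trans ?_) h5)
    exact mul_le_mul_of_nonneg_left h4 (by positivity)
  have h8 : ‖p.2 - p'.2‖ * (‖c‖ / 2) ≤ (‖F'‖ + ‖c‖ / 2) * ‖p.1 - p'.1‖ := by nlinarith
  rw [dist_eq_norm, dist_eq_norm]
  show ‖p.2 - p'.2‖ ≤ (‖F'‖ + ‖c‖ / 2) * (2 / ‖c‖) * ‖p.1 - p'.1‖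
  have h9 : ‖p.2 - p'.2‖ = ‖p.2 - p'.2‖ * (‖c‖ / 2) * (2 / ‖c‖) := by
    field_simp
  rw [h9]
  calc ‖p.2 - p'.2‖ * (‖c‖ / 2) * (2 / ‖c‖)
      ≤ ((‖F'‖ + ‖c‖ / 2) * ‖p.1 - p'.1‖) * (2 / ‖c‖) :=
        mul_le_mul_of_nonneg_right h8 (by positivity)
    _ = _ := by ring

/-- The set of all `(s, z)` with `z i ∈ T s` for all `i` has dimension at most `2`, for all finite
index types. -/
def Small (T : ℂ → Set ℂ) : Prop :=
  ∀ (ι : Type) [Fintype ι], dimH {p : ℂ × (ι → ℂ) | ∀ i, p.2 i ∈ T p.1} ≤ 2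

theorem Small.extend {T T' : ℂ → Set ℂ} (hT : Small T) {J : Type} [Countable J] (M : J → ℕ)
    (R : ∀ j, Set ((ℂ × (Fin (M j) → ℂ)) × ℂ)) (hR : ∀ j, LocGraph (R j))
    (hT' : ∀ s, ∀ w ∈ T' s, ∃ (j : J) (u : Fin (M j) → ℂ), (∀ i, u i ∈ T s) ∧ ((s, u), w) ∈ R j) :
    Small T' := by
  intro ι _
  classical
  let A : ∀ D : ι → J, Set (ℂ × ((Σ i : ι, Fin (M (D i))) → ℂ)) := fun D =>
    {q | ∀ x, q.2 x ∈ T q.1}
  have hA : ∀ D, dimH (A D) ≤ 2 := fun D => hT _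
  let B : ∀ D : ι → J, Set ((ℂ × ((Σ i : ι, Fin (M (D i))) → ℂ)) × (ι → ℂ)) := fun D =>
    {p | p.1 ∈ A D ∧ ∀ i, ((p.1.1, fun k => p.1.2 ⟨i, k⟩), p.2 i) ∈ R (D i)}
  have hB : ∀ D, LocGraph (B D) := by
    intro D p₀ hp₀
    have h1 : ∀ i, ∃ K : ℝ≥0, ∀ᶠ q : ((ℂ × ((Σ i : ι, Fin (M (D i))) → ℂ)) × (ι → ℂ)) ×
        ((ℂ × ((Σ i : ι, Fin (M (D i))) → ℂ)) × (ι → ℂ)) in 𝓝 p₀ ×ˢ 𝓝 p₀,
        q.1 ∈ B D → q.2 ∈ B D → dist (q.1.2 i) (q.2.2 i) ≤ K * dist q.1.1 q.2.1 := by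
      intro i
      obtain ⟨K, hK⟩ := hR (D i) _ (hp₀.2 i)
      refine ⟨K, ?_⟩
      let π : ((ℂ × ((Σ i : ι, Fin (M (D i))) → ℂ)) × (ι → ℂ)) → ((ℂ × (Fin (M (D i)) → ℂ)) × ℂ) :=
        fun p => ((p.1.1, fun k => p.1.2 ⟨i, k⟩), p.2 i)
      have hπ : Continuous π := by
        fun_prop
      have h2 : Tendsto (fun q : ((ℂ × ((Σ i : ι, Fin (M (D i))) → ℂ)) × (ι → ℂ)) ×
          ((ℂ × ((Σ i : ι, Fin (M (D i))) → ℂ)) × (ι → ℂ)) => (π q.1, π q.2))
          (𝓝 p₀ ×ˢ 𝓝 p₀) (𝓝 (π p₀) ×ˢ 𝓝 (π p₀)) :=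
        (hπ.tendsto p₀).prodMap (hπ.tendsto p₀)
      filter_upwards [h2.eventually hK] with q hq h3 h4
      refine (hq (h3.2 i) (h4.2 i)).trans ?_
      refine mul_le_mul_of_nonneg_left ?_ K.2
      show dist (q.1.1.1, fun k => q.1.1.2 ⟨i, k⟩) (q.2.1.1, fun k => q.2.1.2 ⟨i, k⟩) ≤ _
      rw [Prod.dist_eq, Prod.dist_eq]
      refine max_le_max le_rfl ?_
      rw [dist_pi_le_iff dist_nonneg]
      intro k
      exact dist_le_pi_dist q.1.1.2 q.2.1.2 ⟨i, k⟩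
    choose K hK using h1
    refine ⟨∑ i, K i, ?_⟩
    filter_upwards [Filter.eventually_all.2 hK] with q hq h3 h4
    rw [dist_pi_le_iff (by positivity)]
    intro i
    refine (hq i h3 h4).trans ?_
    refine mul_le_mul_of_nonneg_right ?_ dist_nonneg
    exact_mod_cast Finset.single_le_sum (f := K) (fun j _ => zero_le) (Finset.mem_univ i)
  have hBd : ∀ D, dimH (B D) ≤ 2 := fun D => ((hB D).dimH_le (fun p hp => hp.1)).trans (hA D)
  have hsub : {p : ℂ × (ι → ℂ) | ∀ i, p.2 i ∈ T' p.1} ⊆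
      ⋃ D : ι → J, (fun p : (ℂ × ((Σ i : ι, Fin (M (D i))) → ℂ)) × (ι → ℂ) => (p.1.1, p.2)) '' B D := by
    intro p hp
    choose D u hu huR using fun i => hT' p.1 (p.2 i) (hp i)
    refine mem_iUnion.2 ⟨D, ⟨((p.1, fun x => u x.1 x.2), p.2), ⟨fun x => hu x.1 x.2, fun i => huR i⟩, rfl⟩⟩
  refine (dimH_mono hsub).trans ?_
  rw [dimH_iUnion]
  refine iSup_le fun D => ?_
  refine le_trans ?_ (hBd D)
  have hl : LipschitzWith 1
      (fun p : (ℂ × ((Σ i : ι, Fin (M (D i))) → ℂ)) × (ι → ℂ) => (p.1.1, p.2)) := by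
    have h1 : LipschitzWith 1 (fun p : (ℂ × ((Σ i : ι, Fin (M (D i))) → ℂ)) × (ι → ℂ) => p.1.1) := by
      have h0 := (LipschitzWith.prod_fst (α := ℂ) (β := ((Σ i : ι, Fin (M (D i))) → ℂ))).comp
        (LipschitzWith.prod_fst (α := ℂ × ((Σ i : ι, Fin (M (D i))) → ℂ)) (β := ι → ℂ))
      rw [one_mul] at h0
      exact h0
    have h2 : LipschitzWith 1 (fun p : (ℂ × ((Σ i : ι, Fin (M (D i))) → ℂ)) × (ι → ℂ) => p.2) :=
      LipschitzWith.prod_snd
    simpa using h1.prodMk h2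
  exact hl.dimH_image_le _

/-- Adjoin exponentials and logarithms. -/
def expLog (T : ℂ → Set ℂ) (s : ℂ) : Set ℂ :=
  {w | s ≠ 0 ∧ (w ∈ T s ∨ (∃ x ∈ T s, w = Complex.exp (s * x)) ∨ Complex.exp (s * w) ∈ T s)}

theorem Small.expLog {T : ℂ → Set ℂ} (hT : Small T) : Small (expLog T) := by
  let F : Fin 3 → (ℂ × (Fin 1 → ℂ)) × ℂ → ℂ := ![fun q => q.2 - q.1.2 0,
    fun q => q.2 - Complex.exp (q.1.1 * q.1.2 0), fun q => Complex.exp (q.1.1 * q.2) - q.1.2 0]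
  have hF : ∀ j, ContDiff ℂ 1 (F j) := by
    intro j
    have h0 : ContDiff ℂ 1 (fun q : (ℂ × (Fin 1 → ℂ)) × ℂ => q.1.2 0) :=
      (contDiff_apply ℂ ℂ (0 : Fin 1)).comp (contDiff_snd.comp contDiff_fst)
    have h1 : ContDiff ℂ 1 (fun q : (ℂ × (Fin 1 → ℂ)) × ℂ => q.1.1) := contDiff_fst.comp contDiff_fst
    have h2 : ContDiff ℂ 1 (fun q : (ℂ × (Fin 1 → ℂ)) × ℂ => q.2) := contDiff_snd
    fin_cases j
    · exact h2.sub h0
    · exact h2.sub (h1.mul h0).cexp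
    · exact (h1.mul h2).cexp.sub h0
  refine hT.extend (J := Fin 3) (fun _ => 1)
    (fun j => {q | F j q = 0 ∧ fderiv ℂ (F j) q (0, 1) ≠ 0})
    (fun j => locGraph_zeros (F j) (hF j) _ (fun p hp => hp)) ?_
  rintro s w ⟨hs, hw⟩
  have hder : ∀ (j : Fin 3) (u : Fin 1 → ℂ) (d : ℂ),
      HasDerivAt (fun z : ℂ => F j ((s, u), z)) d w → fderiv ℂ (F j) ((s, u), w) (0, 1) = d := by
    intro j u d hd
    have h1 : HasFDerivAt (F j) (fderiv ℂ (F j) ((s, u), w)) ((s, u), w) :=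
      ((hF j).differentiable one_ne_zero _).hasFDerivAt
    have h2 : HasDerivAt (fun z : ℂ => (((s, u), z) : (ℂ × (Fin 1 → ℂ)) × ℂ)) (0, 1) w :=
      (hasDerivAt_const w (s, u)).prodMk (hasDerivAt_id w)
    exact (h1.comp_hasDerivAt w h2).unique hd
  rcases hw with hw | ⟨x, hx, rfl⟩ | hw
  · refine ⟨0, fun _ => w, fun _ => hw, ?_, ?_⟩
    · show w - w = 0
      ring
    · rw [hder 0 (fun _ => w) 1 ((hasDerivAt_id w).sub_const w)]
      exact one_ne_zero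
  · refine ⟨1, fun _ => x, fun _ => hx, ?_, ?_⟩
    · show Complex.exp (s * x) - Complex.exp (s * x) = 0
      ring
    · have h1 : HasDerivAt (fun z : ℂ => z - Complex.exp (s * x)) 1 (Complex.exp (s * x)) :=
        (hasDerivAt_id _).sub_const _
      rw [hder 1 (fun _ => x) 1 h1]
      exact one_ne_zero
  · refine ⟨2, fun _ => Complex.exp (s * w), fun _ => hw, ?_, ?_⟩
    · show Complex.exp (s * w) - Complex.exp (s * w) = 0
      ring
    · have h1 : HasDerivAt (fun z : ℂ => Complex.exp (s * z) - Complex.exp (s * w))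
          (Complex.exp (s * w) * s) w := by
        have := ((hasDerivAt_id w).const_mul s).cexp.sub_const (Complex.exp (s * w))
        simpa using this
      rw [hder 2 (fun _ => Complex.exp (s * w)) _ h1]
      exact mul_ne_zero (Complex.exp_ne_zero _) hs

/-- The algebra generated. -/
def ringCl (T : ℂ → Set ℂ) (s : ℂ) : Set ℂ := (Algebra.adjoin ℚ (T s) : Set ℂ)

theorem fderiv_last {E : Type*} [NormedAddCommGroup E] [NormedSpace ℂ E] (F : E × ℂ → ℂ)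
    (hF : ContDiff ℂ 1 F) (x : E) (w d : ℂ) (hd : HasDerivAt (fun z : ℂ => F (x, z)) d w) :
    fderiv ℂ F (x, w) (0, 1) = d := by
  have h1 : HasFDerivAt F (fderiv ℂ F (x, w)) (x, w) :=
    (hF.differentiable one_ne_zero _).hasFDerivAt
  have h2 : HasDerivAt (fun z : ℂ => ((x, z) : E × ℂ)) (0, 1) w :=
    (hasDerivAt_const w x).prodMk (hasDerivAt_id w)
  exact (h1.comp_hasDerivAt w h2).unique hd

theorem contDiff_aeval {n : ℕ} (P : MvPolynomial (Fin n) ℚ) :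
    ContDiff ℂ 1 (fun u : Fin n → ℂ => MvPolynomial.aeval u P) := by
  induction P using MvPolynomial.induction_on with
  | C a =>
    simp only [MvPolynomial.aeval_C]
    exact contDiff_const
  | add p q hp hq =>
    simp only [map_add]
    exact hp.add hq
  | mul_X p i hp =>
    simp only [map_mul, MvPolynomial.aeval_X]
    exact hp.mul (contDiff_apply ℂ ℂ i)

theorem Small.ringCl {T : ℂ → Set ℂ} (hT : Small T) : Small (ringCl T) := by
  have : Countable (Σ n : ℕ, MvPolynomial (Fin n) ℚ) := by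
    have : ∀ n : ℕ, Countable (MvPolynomial (Fin n) ℚ) := fun n => by
      rw [← Cardinal.mk_le_aleph0_iff]
      refine MvPolynomial.cardinalMk_le_max.trans ?_
      simp
    infer_instance
  have hF : ∀ j : (Σ n : ℕ, MvPolynomial (Fin n) ℚ),
      ContDiff ℂ 1 (fun q : (ℂ × (Fin j.1 → ℂ)) × ℂ => q.2 - MvPolynomial.aeval q.1.2 j.2) := by
    intro j
    exact contDiff_snd.sub ((contDiff_aeval j.2).comp (contDiff_snd.comp contDiff_fst))
  refine hT.extend (J := Σ n : ℕ, MvPolynomial (Fin n) ℚ) (fun j => j.1)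
    (fun j => {q | q.2 - MvPolynomial.aeval q.1.2 j.2 = 0})
    (fun j => locGraph_zeros (fun q : (ℂ × (Fin j.1 → ℂ)) × ℂ => q.2 - MvPolynomial.aeval q.1.2 j.2)
      (hF j) _ (fun p hp => ⟨hp, ?_⟩)) ?_
  · have h1 : HasDerivAt (fun z : ℂ => z - MvPolynomial.aeval p.1.2 j.2) 1 p.2 :=
      (hasDerivAt_id _).sub_const _
    rw [fderiv_last _ (hF j) p.1 p.2 1 h1]
    exact one_ne_zero
  · intro s w hw
    have h1 : w ∈ Algebra.adjoin ℚ (T s) := hw
    rw [Algebra.adjoin_eq_range] at h1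
    obtain ⟨P, rfl⟩ := h1
    obtain ⟨n, f, _, q, rfl⟩ := MvPolynomial.exists_fin_rename P
    refine ⟨⟨n, q⟩, fun i => (f i : ℂ), fun i => (f i).2, ?_⟩
    show _ - _ = (0 : ℂ)
    rw [sub_eq_zero]
    show MvPolynomial.aeval _ (MvPolynomial.rename f q) = _
    rw [MvPolynomial.aeval_rename]
    rfl

/-- The roots of polynomials with coefficients in the algebra generated. -/
def algCl (T : ℂ → Set ℂ) (s : ℂ) : Set ℂ := {w | IsAlgebraic (Algebra.adjoin ℚ (T s)) w}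

theorem exists_simple (A : Subalgebra ℚ ℂ) (w : ℂ) (hw : IsAlgebraic A w) :
    ∃ (n : ℕ) (u : Fin n → ℂ), (∀ i, u i ∈ A) ∧ ∑ i, u i * w ^ (i : ℕ) = 0 ∧
      ∃ d ≠ 0, HasDerivAt (fun z : ℂ => ∑ i, u i * z ^ (i : ℕ)) d w := by
  classical
  have hex : ∃ d : ℕ, ∃ p : Polynomial A, p ≠ 0 ∧ Polynomial.aeval w p = 0 ∧ p.natDegree = d := by
    obtain ⟨p, hp, h⟩ := hw
    exact ⟨_, p, hp, h, rfl⟩
  obtain ⟨p, hp0, hp, hd⟩ := Nat.find_spec hex
  have hmin := fun m (hm : m < Nat.find hex) => Nat.find_min hex hm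
  have hdeg : p.natDegree ≠ 0 := by
    intro h0
    rw [Polynomial.eq_C_of_natDegree_eq_zero h0, Polynomial.aeval_C] at hp
    apply hp0
    rw [Polynomial.eq_C_of_natDegree_eq_zero h0]
    have : p.coeff 0 = 0 := by
      apply Subtype.ext
      exact hp
    rw [this, map_zero]
  have hder : Polynomial.aeval w (Polynomial.derivative p) ≠ 0 := by
    intro h0
    have h1 : (Polynomial.derivative p).natDegree < p.natDegree :=
      Polynomial.natDegree_derivative_lt hdeg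
    have h2 : Polynomial.derivative p ≠ 0 := by
      intro h3
      exact hdeg (Polynomial.derivative_eq_zero.1 h3)
    exact hmin _ (hd ▸ h1) ⟨_, h2, h0, rfl⟩
  have hfun : ∀ z : ℂ, Polynomial.aeval z p = ∑ i : Fin (p.natDegree + 1), (p.coeff i : ℂ) * z ^ (i : ℕ) := by
    intro z
    rw [Polynomial.aeval_eq_sum_range, Finset.sum_range]
    rfl
  refine ⟨p.natDegree + 1, fun i => (p.coeff i : ℂ), fun i => (p.coeff i).2, ?_, _, hder, ?_⟩
  · rw [← hfun w, hp]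
  · have h1 := p.hasDerivAt_aeval w
    have h2 : (fun z : ℂ => Polynomial.aeval z p) =
      fun z : ℂ => ∑ i : Fin (p.natDegree + 1), (p.coeff i : ℂ) * z ^ (i : ℕ) := funext hfun
    rw [h2] at h1
    exact h1

theorem Small.algCl {T : ℂ → Set ℂ} (hT : Small T) : Small (algCl T) := by
  have hF : ∀ n : ℕ,
      ContDiff ℂ 1 (fun q : (ℂ × (Fin n → ℂ)) × ℂ => ∑ i, q.1.2 i * q.2 ^ (i : ℕ)) := by
    intro n
    refine ContDiff.sum fun i _ => ?_
    exact ((contDiff_apply ℂ ℂ i).comp (contDiff_snd.comp contDiff_fst)).mul (contDiff_snd.pow _)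
  refine hT.ringCl.extend (J := ℕ) (fun n => n)
    (fun n => {q | ∑ i, q.1.2 i * q.2 ^ (i : ℕ) = 0 ∧
      fderiv ℂ (fun q : (ℂ × (Fin n → ℂ)) × ℂ => ∑ i, q.1.2 i * q.2 ^ (i : ℕ)) q (0, 1) ≠ 0})
    (fun n => locGraph_zeros _ (hF n) _ (fun p hp => hp)) ?_
  intro s w hw
  obtain ⟨n, u, hu, h0, d, hd, hder⟩ := exists_simple _ w hw
  refine ⟨n, u, hu, h0, ?_⟩
  rw [fderiv_last _ (hF n) (s, u) w d hder]
  exact hd

/-- The tower of sets. -/
def TT : ℕ → ℂ → Set ℂ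
  | 0 => fun _ => Set.range (algebraMap ℚ ℂ)
  | n + 1 => algCl (expLog (TT n))

theorem small_TT (n : ℕ) : Small (TT n) := by
  induction n with
  | zero =>
    intro ι _
    have hsub : {p : ℂ × (ι → ℂ) | ∀ i, p.2 i ∈ TT 0 p.1} ⊆
        ⋃ c : ι → ℚ, (fun s : ℂ => (s, fun i => ((c i : ℚ) : ℂ))) '' Set.univ := by
      intro p hp
      choose c hc using hp
      refine mem_iUnion.2 ⟨c, p.1, mem_univ _, ?_⟩
      refine Prod.ext rfl (funext fun i => ?_)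
      exact hc i
    refine (dimH_mono hsub).trans ?_
    rw [dimH_iUnion]
    refine iSup_le fun c => ?_
    have hl : LipschitzWith 1 (fun s : ℂ => (s, fun i : ι => ((c i : ℚ) : ℂ))) := by
      have h1 : LipschitzWith 1 (fun s : ℂ => s) := LipschitzWith.id
      have h2 : LipschitzWith 0 (fun s : ℂ => (fun i : ι => ((c i : ℚ) : ℂ))) :=
        LipschitzWith.const _
      simpa using h1.prodMk h2
    refine (hl.dimH_image_le _).trans ?_
    rw [Real.dimH_univ_eq_finrank, Complex.finrank_real_complex]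
    norm_num
  | succ n ih => exact ih.expLog.algCl

/-- The pairs of elements of a common tower. -/
theorem dimH_pairs_le (n : ℕ) : dimH {p : ℂ × ℂ | ∃ s, p.1 ∈ TT n s ∧ p.2 ∈ TT n s} ≤ 2 := by
  have h := small_TT n (Fin 2)
  have hsub : {p : ℂ × ℂ | ∃ s, p.1 ∈ TT n s ∧ p.2 ∈ TT n s} ⊆
      (fun q : ℂ × (Fin 2 → ℂ) => (q.2 0, q.2 1)) ''
        {p : ℂ × (Fin 2 → ℂ) | ∀ i, p.2 i ∈ TT n p.1} := by
    rintro p ⟨s, h1, h2⟩
    refine ⟨(s, ![p.1, p.2]), ?_, rfl⟩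
    intro i
    fin_cases i
    · exact h1
    · exact h2
  refine (dimH_mono hsub).trans (le_trans ?_ h)
  have hl : LipschitzWith 1 (fun q : ℂ × (Fin 2 → ℂ) => (q.2 0, q.2 1)) := by
    have h1 : ∀ i : Fin 2, LipschitzWith 1 (fun q : ℂ × (Fin 2 → ℂ) => q.2 i) := by
      intro i
      have := (LipschitzWith.eval (α := fun _ : Fin 2 => ℂ) i).comp
        (LipschitzWith.prod_snd (α := ℂ) (β := Fin 2 → ℂ))
      rw [one_mul] at this
      exact this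
    simpa using (h1 0).prodMk (h1 1)
  exact hl.dimH_image_le _

end Pool.Agent.X120
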